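import Mathlib

/-!
Closed subgroups of a torus `J → ℝ/ℤ` (with `J` arbitrary) are determined by the characters that
vanish on them.
-/

open MeasureTheory TopologicalSpace Set

namespace Pool.Agent.Lib.MP_67c6ba_gt

variable {J : Type*}

/-- The character of the torus `J → ℝ/ℤ` attached to the finitely supported integer vector `n`,
as a function with values in `ℝ/ℤ`. -/
noncomputable def pair (n : J →₀ ℤ) (x : J → UnitAddCircle) : UnitAddCircle :=
  n.sum fun j k => k • x j

lemma pair_zero_left (x : J → UnitAddCircle) : pair 0 x = 0 := by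
  simp [pair]

lemma pair_add_left (n m : J →₀ ℤ) (x : J → UnitAddCircle) :
    pair (n + m) x = pair n x + pair m x := by
  classical
  unfold pair
  rw [Finsupp.sum_add_index']
  · intro j; simp
  · intro j k l; rw [add_smul]

lemma pair_neg_left (n : J →₀ ℤ) (x : J → UnitAddCircle) :
    pair (-n) x = - pair n x := by
  have h := pair_add_left n (-n) x
  rw [add_neg_cancel, pair_zero_left] at h
  exact (neg_eq_of_add_eq_zero_right h.symm).symm

lemma pair_sub_left (n m : J →₀ ℤ) (x : J → UnitAddCircle) :
    pair (n - m) x = pair n x - pair m x := by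
  rw [sub_eq_add_neg, pair_add_left, pair_neg_left, sub_eq_add_neg]

lemma pair_add_right (n : J →₀ ℤ) (x y : J → UnitAddCircle) :
    pair n (x + y) = pair n x + pair n y := by
  unfold pair
  rw [← Finsupp.sum_add]
  simp

lemma pair_zero_right (n : J →₀ ℤ) : pair n (0 : J → UnitAddCircle) = 0 := by
  simp [pair]

lemma pair_neg_right (n : J →₀ ℤ) (x : J → UnitAddCircle) :
    pair n (-x) = - pair n x := by
  have h := pair_add_right n x (-x)
  rw [add_neg_cancel, pair_zero_right] at h
  exact (neg_eq_of_add_eq_zero_right h.symm).symm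

lemma pair_single (j : J) (k : ℤ) (x : J → UnitAddCircle) :
    pair (Finsupp.single j k) x = k • x j := by
  classical
  simp [pair]

lemma continuous_pair (n : J →₀ ℤ) : Continuous (pair n) := by
  unfold pair Finsupp.sum
  fun_prop

/-- The complex valued character attached to `n`. -/
noncomputable def ch (n : J →₀ ℤ) : C(J → UnitAddCircle, ℂ) :=
  ⟨fun x => (AddCircle.toCircle (pair n x) : ℂ), by
    have := continuous_pair n
    exact continuous_subtype_val.comp (AddCircle.continuous_toCircle.comp this)⟩

lemma ch_apply (n : J →₀ ℤ) (x : J → UnitAddCircle) :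
    ch n x = (AddCircle.toCircle (pair n x) : ℂ) := rfl

lemma ch_zero : ch (0 : J →₀ ℤ) = 1 := by
  ext x
  simp [ch_apply, pair_zero_left]

lemma ch_add (n m : J →₀ ℤ) : ch (n + m) = ch n * ch m := by
  ext x
  simp [ch_apply, pair_add_left, AddCircle.toCircle_add]

lemma ch_apply_add (n : J →₀ ℤ) (x y : J → UnitAddCircle) :
    ch n (x + y) = ch n x * ch n y := by
  simp [ch_apply, pair_add_right, AddCircle.toCircle_add]

lemma ch_neg (n : J →₀ ℤ) : ch (-n) = star (ch n) := by
  ext x
  rw [ch_apply, pair_neg_left, AddCircle.toCircle_neg, Circle.coe_inv_eq_conj]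
  rfl

/-- The star subalgebra generated by the characters. -/
noncomputable def trigAlg : StarSubalgebra ℂ C(J → UnitAddCircle, ℂ) where
  toSubalgebra := Algebra.adjoin ℂ (range ch)
  star_mem' := by
    change Algebra.adjoin ℂ (range (ch (J := J))) ≤
      star (Algebra.adjoin ℂ (range (ch (J := J))))
    refine Algebra.adjoin_le ?_
    rintro - ⟨n, rfl⟩
    refine Algebra.subset_adjoin ⟨-n, ?_⟩
    exact ch_neg n

lemma trigAlg_coe :
    Subalgebra.toSubmodule (trigAlg (J := J)).toSubalgebra = Submodule.span ℂ (range ch) := by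
  apply Algebra.adjoin_eq_span_of_subset
  refine Subset.trans ?_ Submodule.subset_span
  intro x hx
  refine Submonoid.closure_induction (fun _ => id) ⟨0, ?_⟩ ?_ hx
  · exact ch_zero
  · rintro - - - - ⟨m, rfl⟩ ⟨n, rfl⟩
    exact ⟨m + n, ch_add m n⟩

lemma trigAlg_separatesPoints : (trigAlg (J := J)).SeparatesPoints := by
  intro x y hxy
  obtain ⟨j, hj⟩ := Function.ne_iff.mp hxy
  refine ⟨_, ⟨ch (Finsupp.single j 1), Algebra.subset_adjoin ⟨_, rfl⟩, rfl⟩, ?_⟩
  intro h
  apply hj
  have h' : (AddCircle.toCircle (x j) : ℂ) = (AddCircle.toCircle (y j) : ℂ) := by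
    simpa [ch_apply, pair_single] using h
  exact AddCircle.injective_toCircle one_ne_zero (Subtype.coe_injective h')

lemma trig_dense : (Submodule.span ℂ (range (ch (J := J)))).topologicalClosure = ⊤ := by
  rw [← trigAlg_coe]
  exact congr_arg (Subalgebra.toSubmodule <| StarSubalgebra.toSubalgebra ·)
    (ContinuousMap.starSubalgebra_topologicalClosure_eq_top_of_separatesPoints trigAlg
      trigAlg_separatesPoints)

/-- Duality for closed subgroups of a torus. -/
theorem mem_closed_subgroup (C : AddSubgroup (J → UnitAddCircle))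
    (hC : IsClosed (C : Set (J → UnitAddCircle))) (x : J → UnitAddCircle)
    (hx : ∀ n : J →₀ ℤ, (∀ c ∈ C, pair n c = 0) → pair n x = 0) : x ∈ C := by
  classical
  by_contra hxC
  have : CompactSpace C := isCompact_iff_compactSpace.mp hC.isCompact
  let _ : MeasurableSpace C := borel C
  have : BorelSpace C := ⟨rfl⟩
  set μ : Measure C := Measure.addHaar with hμ
  have : IsFiniteMeasure μ := inferInstance
  -- the two functionals
  have hcont : ∀ (F : C(J → UnitAddCircle, ℂ)) (y : J → UnitAddCircle),
      Continuous fun c : C => F ((c : J → UnitAddCircle) + y) := by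
    intro F y
    exact F.continuous.comp (continuous_subtype_val.add continuous_const)
  have hint : ∀ (F : C(J → UnitAddCircle, ℂ)) (y : J → UnitAddCircle),
      Integrable (fun c : C => F ((c : J → UnitAddCircle) + y)) μ := by
    intro F y
    exact (hcont F y).integrable_of_hasCompactSupport
      (HasCompactSupport.of_compactSpace _)
  let Λ : (J → UnitAddCircle) → C(J → UnitAddCircle, ℂ) →ₗ[ℂ] ℂ := fun y =>
    { toFun := fun F => ∫ c : C, F ((c : J → UnitAddCircle) + y) ∂μ
      map_add' := by
        intro F G
        exact integral_add (hint F y) (hint G y)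
      map_smul' := by
        intro a F
        exact integral_smul a _ }
  have hΛcont : ∀ y, Continuous (Λ y) := by
    intro y
    refine AddMonoidHomClass.continuous_of_bound (Λ y) (μ.real univ) ?_
    intro F
    have := norm_integral_le_of_norm_le_const (μ := μ)
      (f := fun c : C => F ((c : J → UnitAddCircle) + y)) (C := ‖F‖)
      (Filter.Eventually.of_forall fun c => F.norm_coe_le_norm _)
    calc ‖Λ y F‖ ≤ ‖F‖ * μ.real univ := this
      _ = μ.real univ * ‖F‖ := mul_comm _ _
  -- on characters the functionals agree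
  have hchar : ∀ n : J →₀ ℤ, Λ x (ch n) = Λ 0 (ch n) := by
    intro n
    have h1 : ∀ y, Λ y (ch n) = (∫ c : C, ch n (c : J → UnitAddCircle) ∂μ) * ch n y := by
      intro y
      change ∫ c : C, ch n ((c : J → UnitAddCircle) + y) ∂μ = _
      simp_rw [ch_apply_add]
      exact integral_mul_const _ _
    rw [h1, h1]
    by_cases hn : ∀ c ∈ C, pair n c = 0
    · have hx' := hx n hn
      simp [ch_apply, hx', pair_zero_right]
    · push Not at hn
      obtain ⟨c₀, hc₀, hne⟩ := hn
      have hI : (∫ c : C, ch n (c : J → UnitAddCircle) ∂μ) = 0 := by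
        have hinv : (∫ c : C, ch n ((c + ⟨c₀, hc₀⟩ : C) : J → UnitAddCircle) ∂μ)
            = ∫ c : C, ch n (c : J → UnitAddCircle) ∂μ :=
          integral_add_right_eq_self (μ := μ) (fun c : C => ch n (c : J → UnitAddCircle))
            (⟨c₀, hc₀⟩ : C)
        have hsplit : (∫ c : C, ch n ((c + ⟨c₀, hc₀⟩ : C) : J → UnitAddCircle) ∂μ)
            = (∫ c : C, ch n (c : J → UnitAddCircle) ∂μ) * ch n c₀ := by
          rw [← integral_mul_const]
          congr 1
          ext c
          exact ch_apply_add n c c₀
        rw [hsplit] at hinv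
        have hne1 : ch n c₀ ≠ 1 := by
          intro h
          apply hne
          have h' : AddCircle.toCircle (pair n c₀) = AddCircle.toCircle (0 : UnitAddCircle) := by
            apply Subtype.coe_injective
            simpa [ch_apply] using h
          exact AddCircle.injective_toCircle one_ne_zero h'
        have : (∫ c : C, ch n (c : J → UnitAddCircle) ∂μ) * (ch n c₀ - 1) = 0 := by
          rw [mul_sub, hinv, mul_one, sub_self]
        rcases mul_eq_zero.mp this with h | h
        · exact h
        · exact absurd (sub_eq_zero.mp h) hne1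
      rw [hI]; simp
  have hall : ∀ F : C(J → UnitAddCircle, ℂ), Λ x F = Λ 0 F := by
    intro F
    have hclosed : IsClosed {F : C(J → UnitAddCircle, ℂ) | Λ x F = Λ 0 F} :=
      isClosed_eq (hΛcont x) (hΛcont 0)
    have hsub : (Submodule.span ℂ (range (ch (J := J))) : Set C(J → UnitAddCircle, ℂ)) ⊆
        {F : C(J → UnitAddCircle, ℂ) | Λ x F = Λ 0 F} := by
      intro G hG
      have : Submodule.span ℂ (range (ch (J := J))) ≤ LinearMap.eqLocus (Λ x) (Λ 0) := by
        rw [Submodule.span_le]
        rintro - ⟨n, rfl⟩
        exact hchar n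
      exact this hG
    have hF : F ∈ (Submodule.span ℂ (range (ch (J := J)))).topologicalClosure := by
      rw [trig_dense]; trivial
    exact closure_minimal hsub hclosed hF
  -- separate `x` from `C`
  obtain ⟨g, hg0, hg1, hg⟩ := exists_continuous_zero_one_of_isClosed hC
    (isClosed_singleton (x := x)) (by
      rw [Set.disjoint_singleton_right]; exact hxC)
  let F : C(J → UnitAddCircle, ℂ) := ⟨fun y => ((g y : ℝ) : ℂ), by fun_prop⟩
  have h0 : Λ 0 F = 0 := by
    change ∫ c : C, F ((c : J → UnitAddCircle) + 0) ∂μ = 0
    have : ∀ c : C, F ((c : J → UnitAddCircle) + 0) = 0 := by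
      intro c
      have := hg0 c.2
      simp only [add_zero]
      change ((g (c : J → UnitAddCircle) : ℝ) : ℂ) = 0
      simpa using this
    simp_rw [this]
    simp
  have hxF : Λ x F = ((∫ c : C, g ((c : J → UnitAddCircle) + x) ∂μ : ℝ) : ℂ) := by
    change ∫ c : C, ((g ((c : J → UnitAddCircle) + x) : ℝ) : ℂ) ∂μ = _
    exact integral_ofReal
  have hpos : 0 < ∫ c : C, g ((c : J → UnitAddCircle) + x) ∂μ := by
    have hc : Continuous fun c : C => g ((c : J → UnitAddCircle) + x) :=
      g.continuous.comp (continuous_subtype_val.add continuous_const)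
    refine hc.integral_pos_of_hasCompactSupport_nonneg_nonzero
      (HasCompactSupport.of_compactSpace _) ?_ (x := (0 : C)) ?_
    · intro c; exact (hg _).1
    · have := hg1 (mem_singleton x)
      simp only [ZeroMemClass.coe_zero, zero_add]
      rw [this]; simp
  have := hall F
  rw [h0, hxF] at this
  have : (∫ c : C, g ((c : J → UnitAddCircle) + x) ∂μ) = 0 := by exact_mod_cast this
  linarith

end Pool.Agent.Lib.MP_67c6ba_gt
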